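import Pool.Agent.Helper18.RD.Stmts6

/-! # Row ARN of project RD 6: all data exist on at least half of the points -/

set_option autoImplicit false

namespace Pool.Agent.Helper73.RD6

open Pool.Agent.Helper18.RD Finset

theorem kap_cases (q : ℕ) : ((kap q : ℕ) : ℤ) = 1 ∨ ((kap q : ℕ) : ℤ) = 2 := by
  unfold kap
  split_ifs <;> simp

theorem sg_cases (q a b n l : ℕ) : sg q a b n l = 1 ∨ sg q a b n l = -1 := by
  unfold sg
  split_ifs <;> simp

theorem wi_nonneg (N q a : ℕ) (hN : 1 ≤ N) : 0 ≤ wi N q a := by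
  unfold wi
  have h1 : (1 : ℝ) ≤ N := by exact_mod_cast hN
  have h2 : (0 : ℝ) ≤ (a : ℝ) / q := by positivity
  have h3 : (1 : ℝ) ≤ 8 * ((a : ℝ) / q + N) := by linarith
  have h4 : (1 : ℝ) ≤ (EE q : ℝ) := by
    have : 1 ≤ EE q := Nat.one_le_two_pow
    exact_mod_cast this
  exact add_nonneg (Real.log_nonneg h3) (Real.log_nonneg h4)

/-- the square of the root -/
theorem mm_sq {q a n : ℕ} (h : IsSquare (q * n + a)) :
    (mm q a n : ℤ) * mm q a n = (q : ℤ) * n + a := by
  obtain ⟨r, hr⟩ := h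
  unfold mm
  rw [hr, Nat.sqrt_eq]
  exact_mod_cast hr.symm

/-- a prime which does not divide `q` and divides the difference of the roots -/
theorem dif_dvd {q a n n' p : ℕ} (h : IsSquare (q * n + a)) (h' : IsSquare (q * n' + a))
    (hp : p.Prime) (hpq : ¬ p ∣ q) (hd : (p : ℤ) ∣ (mm q a n : ℤ) - mm q a n') :
    (p : ℤ) ∣ (n : ℤ) - n' := by
  have h1 : (q : ℤ) * ((n : ℤ) - n') =
      ((mm q a n : ℤ) - mm q a n') * ((mm q a n : ℤ) + mm q a n') := by
    have e1 := mm_sq h
    have e2 := mm_sq h'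
    linear_combination e2 - e1
  have h2 : (p : ℤ) ∣ (q : ℤ) * ((n : ℤ) - n') := by
    rw [h1]
    exact hd.mul_right _
  rcases (Nat.prime_iff_prime_int.1 hp).dvd_or_dvd h2 with h3 | h3
  · exact absurd (by exact_mod_cast h3) hpq
  · exact h3

theorem st_ARN (hHALF : ST_HALF) (hUV : ST_UV) (hGR : ST_GR) (hCHI : ST_CHI) (hCHN : ST_CHN) :
    ST_ARN := by
  intro N q a hN hq hc
  obtain ⟨S, hS, hcard, hE⟩ := hHALF N q a hq hc
  have hsq : ∀ n ∈ S, IsSquare (q * n + a) := fun n hn => (mem_filter.mp (hS hn)).2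
  rcases S.eq_empty_or_nonempty with hemp | ⟨b, hb⟩
  · subst hemp
    refine ⟨∅, fun n l => sg q a 0 n l, fun _ _ => 1, fun _ _ => 1, 1, 0,
      fun n => (mm q a n : ℤ), hS, hcard, ?_, ?_⟩
    · exact
        { sub := by simp
          kap := Or.inl rfl
          sgn := fun n l => sg_cases q a 0 n l
          cd := by simp
          w0 := le_refl _
          gram := by simp
          chi := fun p _ => ⟨fun _ => 1, fun _ => 1, fun _ => 1, fun _ => Or.inl rfl,
            fun _ => Or.inl rfl, fun _ => Or.inl rfl, by simp⟩ }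
    · exact
        { dif := by simp
          chn := fun p _ _ _ => ⟨fun _ => 1, fun _ => Or.inl rfl, by simp⟩ }
  · have hlt : ∀ n ∈ S, n < N := fun n hn => mem_range.mp (mem_filter.mp (hS hn)).1
    have hhyp : ∀ n ∈ S, ∀ n' ∈ S, n ≠ n' → Hyp q a b n n' := fun n hn n' hn' hne =>
      { q1 := hq
        cop := hc
        hb := hsq b hb
        hn := hsq n hn
        hn' := hsq n' hn'
        ne := hne
        hE := hE n hn n' hn' }
    refine ⟨S, fun n l => sg q a b n l, cc q a b, dd q a b, (kap q : ℤ), wi N q a,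
      fun n => (mm q a n : ℤ), hS, hcard, ?_, ?_⟩
    · exact
        { sub := fun n hn => mem_range.mpr (hlt n hn)
          kap := kap_cases q
          sgn := fun n l => sg_cases q a b n l
          cd := fun n hn n' hn' hne => (hUV q a b n n' (hhyp n hn n' hn' hne)).2.2.2.1
          w0 := wi_nonneg N q a hN
          gram := fun n hn n' hn' hne =>
            hGR N q a b n n' (hhyp n hn n' hn' hne) (hlt n hn) (hlt n' hn')
          chi := fun p hp => by
            obtain ⟨f, lam, mu, h1, h2, h3, h4⟩ := hCHI q a b p hq hc (hsq b hb) hp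
            exact ⟨f, lam, mu, h1, h2, h3, fun n hn n' hn' hne =>
              h4 n n' (hhyp n hn n' hn' hne)⟩ }
    · exact
        { dif := fun n hn n' hn' p hp hpq hd => dif_dvd (hsq n hn) (hsq n' hn') hp hpq hd
          chn := fun p hp hp2 hpq => by
            obtain ⟨g, h1, h2⟩ := hCHN q a b p hq hc (hsq b hb) hp hp2 hpq
            exact ⟨g, h1, fun n hn n' hn' hne => h2 n n' (hhyp n hn n' hn' hne)⟩ }

end Pool.Agent.Helper73.RD6
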